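import Pool.Agent.W485.QL.Stm

/-!
# Rectifiable curves in the image are constant (SRect)
-/

set_option autoImplicit false

open Filter Topology Metric

namespace Pool.Agent.W382.QL

open Pool.Agent.W485.QL

theorem rect_le (f : ℂ ≃ₜ ℂ) (E : Set ℝ)
    (hK : ∀ K : ℝ, ∃ r : ℝ, 0 < r ∧ ∀ p q : ℂ, p.re ∈ E → dist q p < r →
      K * dist q p ≤ dist (f q) (f p))
    (γ : ℝ → ℂ) (hγ : ContinuousOn γ (Set.Icc 0 1)) (hbv : BoundedVariationOn γ (Set.Icc 0 1))
    (hE : ∀ t ∈ Set.Icc (0 : ℝ) 1, γ t ∈ f '' {z : ℂ | z.re ∈ E}) (s t : ℝ)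
    (hs : s ∈ Set.Icc (0 : ℝ) 1) (ht : t ∈ Set.Icc (0 : ℝ) 1) (hst : s ≤ t) (K : ℝ) (hK0 : 0 ≤ K) :
    K * dist (f.symm (γ s)) (f.symm (γ t)) ≤ (eVariationOn γ (Set.Icc 0 1)).toReal := by
  set b : ℝ → ℂ := fun u => f.symm (γ u) with hb
  have hbc : ContinuousOn b (Set.Icc 0 1) := f.symm.continuous.comp_continuousOn hγ
  have huc : UniformContinuousOn b (Set.Icc 0 1) :=
    isCompact_Icc.uniformContinuousOn_of_continuous hbc
  obtain ⟨r, hr, hKr⟩ := hK K
  rw [Metric.uniformContinuousOn_iff] at huc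
  obtain ⟨δ, hδ, hδ'⟩ := huc r hr
  obtain ⟨N, hN⟩ := exists_nat_gt (1 / δ)
  have hNpos : (0 : ℝ) < N := lt_of_le_of_lt (by positivity) hN
  set u : ℕ → ℝ := fun j => s + j * ((t - s) / N) with hu
  have hstep : 0 ≤ (t - s) / N := div_nonneg (by linarith) hNpos.le
  have hu0 : u 0 = s := by simp [hu]
  have huN : u N = t := by
    simp only [hu]
    field_simp
    ring
  have hmono : Monotone u := by
    intro i j hij
    simp only [hu]
    have : (i : ℝ) ≤ j := by exact_mod_cast hij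
    have := mul_le_mul_of_nonneg_right this hstep
    linarith
  have hmem : ∀ j ≤ N, u j ∈ Set.Icc (0 : ℝ) 1 := by
    intro j hj
    constructor
    · have := hmono (Nat.zero_le j)
      rw [hu0] at this
      exact hs.1.trans this
    · have := hmono hj
      rw [huN] at this
      exact this.trans ht.2
  have hclose : ∀ j < N, dist (b (u (j + 1))) (b (u j)) < r := by
    intro j hj
    apply hδ' _ (hmem _ hj) _ (hmem _ hj.le)
    have h1 : u (j + 1) - u j = (t - s) / N := by
      simp only [hu]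
      push_cast
      ring
    rw [Real.dist_eq, h1, abs_of_nonneg hstep, div_lt_iff₀ hNpos]
    have h2 : t - s ≤ 1 := by linarith [ht.2, hs.1]
    rw [div_lt_iff₀ hδ] at hN
    linarith
  have hone : ∀ j < N, K * dist (b (u (j + 1))) (b (u j)) ≤ dist (γ (u (j + 1))) (γ (u j)) := by
    intro j hj
    obtain ⟨z, hz, hz'⟩ := hE _ (hmem j hj.le)
    have h1 : b (u j) = z := by
      simp only [hb]
      rw [← hz']
      exact f.symm_apply_apply z
    have h2 := hKr (b (u j)) (b (u (j + 1))) (by rw [h1]; exact hz) (hclose j hj)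
    simpa [hb] using h2
  have hsum : ∑ j ∈ Finset.range N, dist (γ (u (j + 1))) (γ (u j)) ≤
      (eVariationOn γ (Set.Icc 0 1)).toReal := by
    have h1 := eVariationOn.sum_le_of_monotoneOn_Iic (f := γ) (s := Set.Icc (0 : ℝ) 1) (n := N)
      (hmono.monotoneOn _) hmem
    have h2 : ∑ j ∈ Finset.range N, dist (γ (u (j + 1))) (γ (u j)) =
        (∑ j ∈ Finset.range N, edist (γ (u (j + 1))) (γ (u j))).toReal := by
      rw [ENNReal.toReal_sum (fun j _ => edist_ne_top _ _)]
      rfl
    rw [h2]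
    exact ENNReal.toReal_mono hbv h1
  have htri : dist (b s) (b t) ≤ ∑ j ∈ Finset.range N, dist (b (u (j + 1))) (b (u j)) := by
    have h1 := dist_le_range_sum_dist (fun j => b (u j)) N
    simp only [hu0, huN] at h1
    refine h1.trans (le_of_eq ?_)
    exact Finset.sum_congr rfl fun j _ => dist_comm _ _
  calc K * dist (b s) (b t) ≤ K * ∑ j ∈ Finset.range N, dist (b (u (j + 1))) (b (u j)) :=
        mul_le_mul_of_nonneg_left htri hK0
    _ = ∑ j ∈ Finset.range N, K * dist (b (u (j + 1))) (b (u j)) := Finset.mul_sum _ _ _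
    _ ≤ ∑ j ∈ Finset.range N, dist (γ (u (j + 1))) (γ (u j)) :=
        Finset.sum_le_sum fun j hj => hone j (Finset.mem_range.1 hj)
    _ ≤ _ := hsum

theorem t_Rect : SRect := by
  intro f E hK γ hγ hbv hE
  have key : ∀ s t : ℝ, s ∈ Set.Icc (0 : ℝ) 1 → t ∈ Set.Icc (0 : ℝ) 1 → s ≤ t → γ s = γ t := by
    intro s t hs ht hst
    have h0 : dist (f.symm (γ s)) (f.symm (γ t)) = 0 := by
      by_contra hne
      have hpos : 0 < dist (f.symm (γ s)) (f.symm (γ t)) := lt_of_le_of_ne dist_nonneg (Ne.symm hne)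
      set V := (eVariationOn γ (Set.Icc 0 1)).toReal with hV
      have hV0 : 0 ≤ V := ENNReal.toReal_nonneg
      have h1 := rect_le f E hK γ hγ hbv hE s t hs ht hst
        ((V + 1) / dist (f.symm (γ s)) (f.symm (γ t))) (by positivity)
      rw [div_mul_cancel₀ _ hne] at h1
      linarith
    exact f.symm.injective (dist_eq_zero.1 h0)
  intro s hs t ht
  rcases le_total s t with h | h
  · exact key s t hs ht h
  · exact (key t s ht hs h).symm

end Pool.Agent.W382.QL
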